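import Pool.Agent.Helper81.C9.Defs
import Pool.Agent.Helper2.EX.Eng

/-!
Project LT (MP_b8862a_ag), block ENG of C9: the engine in big coordinates.
-/

set_option linter.unusedSectionVars false
set_option linter.unusedVariables false

open Matrix Module MH

namespace C9

/-- BLOCK ENG -/
theorem engine {n : Type} [Fintype n] [DecidableEq n] {Q e : Matrix n n ℚ} {P : ℤ → Matrix n n ℂ} (HB : BigHW27 Q e P)
    (hdet : IsUnit Q.det) (F : Matrix n n ℂ →ₗ[ℂ] Matrix n n ℂ)
    (hrat : ∀ A : Matrix n n ℚ, ∃ B : Matrix n n ℚ, F (toC A) = toC B)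
    (hcom : ∀ B : Matrix n n ℂ, toC e * B * toC e = B → (∀ p, B * P p = P p * B) →
      (∀ X, Good Q e F X → ∀ p, B * (X * P p - P p * X) = (X * P p - P p * X) * B) → ∃ b : ℂ, B = b • toC e)
    (hH : Good Q e F (P 2 - P 0)) {c : ℂ} (hc : c ≠ 0) (hFH : F (P 2 - P 0) = c • (P 2 - P 0))
    (hrk : finrank ℂ (LinearMap.range F) < 2 * (P 2).rank * (P 1).rank) : Sharp (P 2).rank (P 1).rank := by
  have hee : e * e = e := by
    have h1 : toC e * toC e = toC e := by
      conv_lhs => rw [← HB.sum, Finset.sum_mul]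
      conv_rhs => rw [← HB.sum]
      refine Finset.sum_congr rfl fun p _ => ?_
      rw [HB.sum, HB.mul_e]
    have h2 : toC (e * e) = toC e := by
      rw [← h1]
      exact Matrix.map_mul
    ext i j
    have := congrFun (congrFun h2 i) j
    exact (algebraMap ℚ ℂ).injective this
  obtain ⟨B, C, hBC, hCB⟩ := SH94.exists_fact hee
  have b1 : rcC B * rcC C = 1 := by
    rw [← rcC_mul, hBC]
    exact Matrix.map_one _ (map_zero _) (map_one _)
  have b2 : rcC C * rcC B = toC e := by
    rw [← rcC_mul, hCB]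
    rfl
  have eC : toC e * rcC C = rcC C := by rw [← b2, Matrix.mul_assoc, b1, Matrix.mul_one]
  have Be : rcC B * toC e = rcC B := by rw [← b2, ← Matrix.mul_assoc, b1, Matrix.one_mul]
  have hQ : toC (Cᵀ * Q * C) = (rcC C)ᵀ * toC Q * rcC C := by
    change rcC (Cᵀ * Q * C) = _
    rw [rcC_mul, rcC_mul]
    rfl
  have H := HB.small hBC hCB
  -- the ranks
  have hr : ∀ p, (rcC B * P p * rcC C).rank = (P p).rank := by
    intro p
    apply le_antisymm
    · exact (Matrix.rank_mul_le_left _ _).trans (Matrix.rank_mul_le_right _ _)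
    · have e1 : P p = rcC C * (rcC B * P p * rcC C) * rcC B := by
        calc P p = toC e * P p * toC e := by rw [HB.e_mul, HB.mul_e]
          _ = _ := by rw [← b2]; simp only [Matrix.mul_assoc]
      conv_lhs => rw [e1]
      exact (Matrix.rank_mul_le_left _ _).trans (Matrix.rank_mul_le_right _ _)
  -- the linear map in small coordinates
  obtain ⟨F', hF'⟩ : ∃ F' : Matrix (Fin e.rank) (Fin e.rank) ℂ →ₗ[ℂ] Matrix (Fin e.rank) (Fin e.rank) ℂ,
      ∀ X, F' X = rcC B * F (rcC C * X * rcC B) * rcC C :=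
    ⟨{ toFun := fun X => rcC B * F (rcC C * X * rcC B) * rcC C
       map_add' := fun X Y => by rw [Matrix.mul_add, Matrix.add_mul, map_add, Matrix.mul_add, Matrix.add_mul]
       map_smul' := fun a X => by
        rw [Matrix.mul_smul, Matrix.smul_mul, map_smul, Matrix.mul_smul, Matrix.smul_mul, RingHom.id_apply] },
      fun X => rfl⟩
  have skew' : ∀ X, Good Q e F X → (rcC B * X * rcC C)ᵀ * toC (Cᵀ * Q * C) + toC (Cᵀ * Q * C) * (rcC B * X * rcC C) = 0 := by
    intro X hX
    rw [hQ]
    have e1 : (rcC B * X * rcC C)ᵀ * ((rcC C)ᵀ * toC Q * rcC C) = (rcC C)ᵀ * (Xᵀ * toC Q) * rcC C := by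
      calc _ = (rcC C * (rcC B * X * rcC C))ᵀ * toC Q * rcC C := by
            simp only [Matrix.transpose_mul, Matrix.mul_assoc]
        _ = (X * (toC e * rcC C))ᵀ * toC Q * rcC C := by
            rw [← Matrix.mul_assoc (rcC C), ← Matrix.mul_assoc (rcC C), b2, ← hX.comm, Matrix.mul_assoc X]
        _ = _ := by rw [eC]; simp only [Matrix.transpose_mul, Matrix.mul_assoc]
    have e2 : ((rcC C)ᵀ * toC Q * rcC C) * (rcC B * X * rcC C) = (rcC C)ᵀ * (toC Q * X) * rcC C := by
      calc _ = (rcC C)ᵀ * toC Q * ((rcC C * rcC B) * X) * rcC C := by simp only [Matrix.mul_assoc]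
        _ = (rcC C)ᵀ * toC Q * X * (toC e * rcC C) := by rw [b2, ← hX.comm]; simp only [Matrix.mul_assoc]
        _ = _ := by rw [eC]; simp only [Matrix.mul_assoc]
    rw [e1, e2, ← Matrix.add_mul, ← Matrix.mul_add, hX.skew]
    simp
  have der' : ∀ X, Good Q e F X → ∀ Y, F' ((rcC B * X * rcC C) * Y - Y * (rcC B * X * rcC C)) =
      (rcC B * X * rcC C) * F' Y - F' Y * (rcC B * X * rcC C) := by
    intro X hX Y
    rw [hF', hF']
    have e1 : rcC C * ((rcC B * X * rcC C) * Y - Y * (rcC B * X * rcC C)) * rcC B =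
        X * (rcC C * Y * rcC B) - (rcC C * Y * rcC B) * X := by
      rw [Matrix.mul_sub, Matrix.sub_mul]
      congr 1
      · calc rcC C * ((rcC B * X * rcC C) * Y) * rcC B = ((rcC C * rcC B) * X) * (rcC C * Y * rcC B) := by
              simp only [Matrix.mul_assoc]
          _ = X * (toC e * rcC C) * Y * rcC B := by rw [b2, ← hX.comm]; simp only [Matrix.mul_assoc]
          _ = _ := by rw [eC]; simp only [Matrix.mul_assoc]
      · calc rcC C * (Y * (rcC B * X * rcC C)) * rcC B = (rcC C * Y * rcC B) * (X * (rcC C * rcC B)) := by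
              simp only [Matrix.mul_assoc]
          _ = rcC C * Y * (rcC B * toC e) * X := by rw [b2, hX.comm]; simp only [Matrix.mul_assoc]
          _ = _ := by rw [Be]
    rw [e1, hX.der]
    obtain ⟨Z, hZ⟩ : ∃ Z, Z = F (rcC C * Y * rcC B) := ⟨_, rfl⟩
    rw [← hZ, Matrix.mul_sub, Matrix.sub_mul]
    congr 1
    · calc rcC B * (X * Z) * rcC C = (rcC B * toC e) * X * Z * rcC C := by rw [Be]; simp only [Matrix.mul_assoc]
        _ = rcC B * (X * (rcC C * rcC B)) * Z * rcC C := by
            rw [b2, hX.comm]; simp only [Matrix.mul_assoc]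
        _ = _ := by simp only [Matrix.mul_assoc]
    · calc rcC B * (Z * X) * rcC C = rcC B * Z * X * (toC e * rcC C) := by rw [eC]; simp only [Matrix.mul_assoc]
        _ = rcC B * Z * ((rcC C * rcC B) * X) * rcC C := by
            rw [b2, ← hX.comm]; simp only [Matrix.mul_assoc]
        _ = _ := by simp only [Matrix.mul_assoc]
  have hd : rcC B * P 2 * rcC C - rcC B * P 0 * rcC C = rcC B * (P 2 - P 0) * rcC C := by
    rw [Matrix.mul_sub, Matrix.sub_mul]
  have hfr : finrank ℂ (LinearMap.range F') ≤ finrank ℂ (LinearMap.range F) := by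
    let Sd : Matrix n n ℂ →ₗ[ℂ] Matrix (Fin e.rank) (Fin e.rank) ℂ :=
      { toFun := fun X => rcC B * X * rcC C
        map_add' := fun X Y => by rw [Matrix.mul_add, Matrix.add_mul]
        map_smul' := fun a X => by rw [Matrix.mul_smul, Matrix.smul_mul, RingHom.id_apply] }
    have hle : LinearMap.range F' ≤ Submodule.map Sd (LinearMap.range F) := by
      rintro _ ⟨X, rfl⟩
      exact ⟨F (rcC C * X * rcC B), ⟨_, rfl⟩, (hF' X).symm⟩
    exact (Submodule.finrank_mono hle).trans (Submodule.finrank_map_le _ _)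
  obtain ⟨P', H', hEnd, hr', hg⟩ := engine_small H F' (fun A => by
      obtain ⟨D, hD⟩ := hrat (C * A * B)
      refine ⟨B * D * C, ?_⟩
      rw [hF']
      have e1 : rcC C * toC A * rcC B = toC (C * A * B) := by
        change _ = rcC (C * A * B)
        rw [rcC_mul, rcC_mul]
        rfl
      rw [e1, hD]
      change _ = rcC (B * D * C)
      rw [rcC_mul, rcC_mul]
      rfl) (by
      intro A hA hA2
      obtain ⟨b, hb⟩ := hcom (rcC C * A * rcC B) (by
        rw [← b2]
        calc rcC C * rcC B * (rcC C * A * rcC B) * (rcC C * rcC B) =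
              rcC C * (rcC B * rcC C) * A * (rcC B * rcC C) * rcC B := by simp only [Matrix.mul_assoc]
          _ = _ := by rw [b1, Matrix.mul_one, Matrix.mul_one]) (fun p => by
        calc rcC C * A * rcC B * P p = rcC C * (A * (rcC B * P p * rcC C)) * rcC B := by
              conv_lhs => rw [← HB.mul_e p, ← b2]
              simp only [Matrix.mul_assoc]
          _ = (rcC C * rcC B) * P p * (rcC C * A * rcC B) := by rw [hA p]; simp only [Matrix.mul_assoc]
          _ = _ := by rw [b2, HB.e_mul]) (fun X hX p => by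
        have e1 := hA2 (rcC B * X * rcC C) (skew' X hX) (der' X hX) p
        have e2 : (rcC B * X * rcC C) * (rcC B * P p * rcC C) - (rcC B * P p * rcC C) * (rcC B * X * rcC C) =
            rcC B * (X * P p - P p * X) * rcC C := by
          rw [Matrix.mul_sub, Matrix.sub_mul]
          congr 1
          · calc _ = rcC B * X * ((rcC C * rcC B) * P p) * rcC C := by simp only [Matrix.mul_assoc]
              _ = _ := by rw [b2, HB.e_mul]; simp only [Matrix.mul_assoc]
          · calc _ = rcC B * (P p * (rcC C * rcC B)) * X * rcC C := by simp only [Matrix.mul_assoc]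
              _ = _ := by rw [b2, HB.mul_e]; simp only [Matrix.mul_assoc]
        rw [e2] at e1
        obtain ⟨Z, hZ⟩ : ∃ Z, Z = X * P p - P p * X := ⟨_, rfl⟩
        have eZ : toC e * Z = Z := by
          rw [hZ, Matrix.mul_sub, ← Matrix.mul_assoc, ← hX.comm, Matrix.mul_assoc, HB.e_mul, ← Matrix.mul_assoc, HB.e_mul]
        have Ze : Z * toC e = Z := by
          rw [hZ, Matrix.sub_mul, Matrix.mul_assoc, HB.mul_e, Matrix.mul_assoc, hX.comm, ← Matrix.mul_assoc, HB.mul_e]
        rw [← hZ] at e1 ⊢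
        calc rcC C * A * rcC B * Z = rcC C * (A * (rcC B * Z * rcC C)) * rcC B := by
              conv_lhs => rw [← Ze, ← b2]
              simp only [Matrix.mul_assoc]
          _ = (rcC C * rcC B) * Z * (rcC C * A * rcC B) := by rw [e1]; simp only [Matrix.mul_assoc]
          _ = _ := by rw [b2, eZ])
      refine ⟨b, ?_⟩
      calc A = (rcC B * rcC C) * A * (rcC B * rcC C) := by rw [b1, Matrix.one_mul, Matrix.mul_one]
        _ = rcC B * (rcC C * A * rcC B) * rcC C := by simp only [Matrix.mul_assoc]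
        _ = b • (rcC B * (toC e * rcC C)) := by
            rw [hb, Matrix.mul_smul, Matrix.smul_mul, Matrix.mul_assoc]
        _ = _ := by rw [eC, b1]) (by
      intro Y
      rw [hd]
      exact der' _ hH Y) hc (by
      rw [hd, hF']
      have e1 : rcC C * (rcC B * (P 2 - P 0) * rcC C) * rcC B = P 2 - P 0 := by
        calc _ = (rcC C * rcC B) * (P 2 - P 0) * (rcC C * rcC B) := by simp only [Matrix.mul_assoc]
          _ = _ := by rw [b2, Matrix.mul_sub, Matrix.sub_mul, HB.e_mul, HB.e_mul, HB.mul_e, HB.mul_e]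
      rw [e1, hFH, Matrix.mul_smul, Matrix.smul_mul]) (by
      rw [hr, hr]
      exact lt_of_le_of_lt hfr hrk)
  refine ⟨Fin e.rank, inferInstance, inferInstance, Cᵀ * Q * C, P', H', hEnd, ?_, ?_, hg⟩
  · rw [hr', hr]
  · rw [hr', hr]

end C9
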