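import Pool.Agent.Helper81.C9.Defs

/-!
Project LT (MP_b8862a_ag), block COM of C9: matrices that commute with the root vectors of level different from zero are
scalars.
-/

set_option linter.unusedSectionVars false
set_option linter.unusedVariables false

open Matrix Module MH

namespace C9

namespace RD

variable {r N : ℕ} {D : RD r N}

theorem ip_single (j : Fin r) (x : Fin r → ℤ) : D.ip (Pi.single j 1) x = ∑ k, D.G j k * x k := by
  unfold ip
  rw [Finset.sum_eq_single j]
  · refine Finset.sum_congr rfl fun k _ => ?_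
    rw [Pi.single_eq_same, one_mul]
  · intro i _ hi
    refine Finset.sum_eq_zero fun k _ => ?_
    rw [Pi.single_eq_of_ne hi, zero_mul, zero_mul]
  · intro h
    exact absurd (Finset.mem_univ _) h

theorem ip_sum (x z : Fin r → ℤ) : D.ip x z = ∑ i, x i * D.ip (Pi.single i 1) z := by
  simp only [ip_single]
  unfold ip
  refine Finset.sum_congr rfl fun i _ => ?_
  rw [Finset.mul_sum]
  refine Finset.sum_congr rfl fun j _ => ?_
  ring

theorem Ok.ip_comm (h : D.Ok) (x z : Fin r → ℤ) : D.ip x z = D.ip z x := by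
  unfold ip
  rw [Finset.sum_comm]
  refine Finset.sum_congr rfl fun i _ => Finset.sum_congr rfl fun j _ => ?_
  have : D.G j i = D.G i j := by rw [h.gb, h.gb, add_comm]
  rw [this]
  ring

theorem ip_neg_right (x z : Fin r → ℤ) : D.ip x (-z) = -D.ip x z := by
  unfold ip
  rw [← Finset.sum_neg_distrib]
  refine Finset.sum_congr rfl fun i _ => ?_
  rw [← Finset.sum_neg_distrib]
  refine Finset.sum_congr rfl fun j _ => ?_
  rw [Pi.neg_apply]
  ring

theorem ip_sub_right (x z w : Fin r → ℤ) : D.ip x (z - w) = D.ip x z - D.ip x w := by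
  unfold ip
  rw [← Finset.sum_sub_distrib]
  refine Finset.sum_congr rfl fun i _ => ?_
  rw [← Finset.sum_sub_distrib]
  refine Finset.sum_congr rfl fun j _ => ?_
  rw [Pi.sub_apply]
  ring

theorem lev_add (x z : Fin r → ℤ) : D.lev (x + z) = D.lev x + D.lev z := by
  unfold lev
  rw [← Finset.sum_add_distrib]
  refine Finset.sum_congr rfl fun i _ => ?_
  rw [Pi.add_apply]
  ring

theorem lev_neg (x : Fin r → ℤ) : D.lev (-x) = -D.lev x := by
  unfold lev
  rw [← Finset.sum_neg_distrib]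
  refine Finset.sum_congr rfl fun i _ => ?_
  rw [Pi.neg_apply]
  ring

theorem lev_single (j : Fin r) : D.lev (Pi.single j 1) = D.y j := by
  unfold lev
  rw [Finset.sum_eq_single j]
  · rw [Pi.single_eq_same, mul_one]
  · intro i _ hi
    rw [Pi.single_eq_of_ne hi, mul_zero]
  · intro h
    exact absurd (Finset.mem_univ _) h

/-- the form is definite -/
theorem Ok.eq_zero (h : D.Ok) {x : Fin r → ℤ} (hx : ∀ j, D.ip (Pi.single j 1) x = 0) : x = 0 := by
  by_contra hne
  have h1 := h.pd (fun i => (x i : ℝ)) (by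
    intro h0
    apply hne
    funext i
    have h5 : (x i : ℝ) = 0 := congrFun h0 i
    exact_mod_cast h5)
  have h2 : ∑ i, ∑ j, (x i : ℝ) * (D.G i j : ℝ) * (x j : ℝ) = ((D.ip x x : ℤ) : ℝ) := by
    unfold ip
    push_cast
    rfl
  have h3 : D.ip x x = 0 := by
    rw [ip_sum]
    exact Finset.sum_eq_zero fun i _ => by rw [hx, mul_zero]
  rw [h2, h3] at h1
  simp at h1

theorem sg_ne (m : ℤ) : sg m ≠ 0 := by
  unfold sg
  split_ifs <;> decide

section ent

variable (D)

theorem L_l_r (a b : Fin N) (k : Fin r) : toC (D.L (.inr a)) (.inl k) (.inr b) = if D.v b = -D.v a then -(D.v a k : ℂ) else 0 := by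
  show algebraMap ℚ ℂ (((if D.v b = -D.v a then -D.v a k else 0 : ℤ)) : ℚ) = _
  split_ifs <;> simp

theorem L_r_r (a b c : Fin N) : toC (D.L (.inr a)) (.inr c) (.inr b) =
    if D.v c = D.v a + D.v b then (sg (D.bf (D.v a) (D.v b)) : ℂ) else 0 := by
  show algebraMap ℚ ℂ (((if D.v c = D.v a + D.v b then sg (D.bf (D.v a) (D.v b)) else 0 : ℤ)) : ℚ) = _
  split_ifs <;> simp

theorem L_l_l (a : Fin N) (k j : Fin r) : toC (D.L (.inr a)) (.inl k) (.inl j) = 0 := by
  show algebraMap ℚ ℂ (((if (Sum.inl k : Fin r ⊕ Fin N) = .inr a then -D.ip (Pi.single j 1) (D.v a) else 0 : ℤ)) : ℚ) = _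
  rw [if_neg (by simp)]
  simp

theorem L_r_l (a c : Fin N) (j : Fin r) : toC (D.L (.inr a)) (.inr c) (.inl j) =
    if c = a then -(D.ip (Pi.single j 1) (D.v a) : ℂ) else 0 := by
  show algebraMap ℚ ℂ (((if (Sum.inr c : Fin r ⊕ Fin N) = .inr a then -D.ip (Pi.single j 1) (D.v a) else 0 : ℤ)) : ℚ) = _
  by_cases h : c = a
  · rw [if_pos (by rw [h]), if_pos h]
    simp
  · rw [if_neg (by simpa using h), if_neg h]
    simp

theorem Ll_l (i : Fin r) (c : Fin r ⊕ Fin N) (j : Fin r) : toC (D.L (.inl i)) c (.inl j) = 0 := by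
  show algebraMap ℚ ℂ (((0 : ℤ)) : ℚ) = _
  simp

theorem Ll_r (i : Fin r) (c : Fin r ⊕ Fin N) (b : Fin N) : toC (D.L (.inl i)) c (.inr b) =
    if c = .inr b then (D.ip (Pi.single i 1) (D.v b) : ℂ) else 0 := by
  show algebraMap ℚ ℂ (((if c = .inr b then D.ip (Pi.single i 1) (D.v b) else 0 : ℤ)) : ℚ) = _
  split_ifs <;> simp

end ent

/-- the diagonal matrix of an element of the torus -/
noncomputable def Tt (D : RD r N) (x : Fin r → ℤ) : Matrix (Fin r ⊕ Fin N) (Fin r ⊕ Fin N) ℂ :=
  ∑ k, (x k : ℂ) • toC (D.L (.inl k))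

theorem Tt_l (x : Fin r → ℤ) (c : Fin r ⊕ Fin N) (j : Fin r) : Tt D x c (.inl j) = 0 := by
  unfold Tt
  rw [Matrix.sum_apply]
  refine Finset.sum_eq_zero fun k _ => ?_
  rw [Matrix.smul_apply, Ll_l, smul_zero]

theorem Tt_r (x : Fin r → ℤ) (c : Fin r ⊕ Fin N) (b : Fin N) : Tt D x c (.inr b) =
    if c = .inr b then (D.ip x (D.v b) : ℂ) else 0 := by
  unfold Tt
  rw [Matrix.sum_apply]
  by_cases h : c = .inr b
  · rw [if_pos h, ip_sum]
    push_cast
    refine Finset.sum_congr rfl fun k _ => ?_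
    rw [Matrix.smul_apply, Ll_r, if_pos h, smul_eq_mul]
  · rw [if_neg h]
    refine Finset.sum_eq_zero fun k _ => ?_
    rw [Matrix.smul_apply, Ll_r, if_neg h, smul_zero]

theorem Tt_sub (x z : Fin r → ℤ) : Tt D (x - z) = Tt D x - Tt D z := by
  unfold Tt
  rw [← Finset.sum_sub_distrib]
  refine Finset.sum_congr rfl fun k _ => ?_
  rw [Pi.sub_apply, Int.cast_sub, sub_smul]

/-- BLOCK COM, with the Jacobi identity as a hypothesis -/
theorem Ok.scalar_jac (h : D.Ok)
    (jac : ∀ a b : Fin r ⊕ Fin N, D.L a * D.L b - D.L b * D.L a = ∑ c, D.L a c b • D.L c)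
    (h1 : ∀ a, D.lev (D.v a) = -1 ∨ D.lev (D.v a) = 0 ∨ D.lev (D.v a) = 1)
    (c1 : ∀ j, D.y j = 0 → ∃ a b, D.lev (D.v a) = 1 ∧ D.v b = D.v a + Pi.single j 1)
    (c2 : ∀ a b, D.lev (D.v a) = 1 → D.lev (D.v b) = 1 →
      ∃ c, D.lev (D.v c) = 1 ∧ D.ip (D.v a) (D.v c) ≠ 0 ∧ D.ip (D.v c) (D.v b) ≠ 0)
    (c3 : ∀ c, D.lev (D.v c) = 0 → ∃ a, D.lev (D.v a) = 1 ∧ D.ip (D.v a) (D.v c) = -1)
    (c4 : ∃ a, D.lev (D.v a) = 1)
    (X : Matrix (Fin r ⊕ Fin N) (Fin r ⊕ Fin N) ℂ)
    (hX : ∀ a, D.lev (D.v a) ≠ 0 → X * toC (D.L (.inr a)) = toC (D.L (.inr a)) * X) :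
    ∃ b : ℂ, X = b • (1 : Matrix (Fin r ⊕ Fin N) (Fin r ⊕ Fin N) ℂ) := by
  classical
  have hv0 : ∀ a, D.v a ≠ 0 := by
    intro a h0
    have := h.two a
    rw [h0] at this
    unfold ip at this
    simp at this
  -- `X` commutes with the torus elements of the roots of level different from zero
  have s1 : ∀ a, D.lev (D.v a) ≠ 0 → X * Tt D (D.v a) = Tt D (D.v a) * X := by
    intro a ha
    obtain ⟨a', ha'⟩ := h.neg a
    have hl : D.lev (D.v a') ≠ 0 := by rw [ha', lev_neg]; omega
    have e1 := hX a ha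
    have e2 := hX a' hl
    have e3 : toC (D.L (.inr a)) * toC (D.L (.inr a')) - toC (D.L (.inr a')) * toC (D.L (.inr a)) = -Tt D (D.v a) := by
      have e4 := congrArg toC (jac (.inr a) (.inr a'))
      have e5 : toC (D.L (.inr a) * D.L (.inr a') - D.L (.inr a') * D.L (.inr a)) =
          toC (D.L (.inr a)) * toC (D.L (.inr a')) - toC (D.L (.inr a')) * toC (D.L (.inr a)) := by
        unfold toC
        rw [Matrix.map_sub _ (fun x y => map_sub _ x y), Matrix.map_mul, Matrix.map_mul]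
      rw [← e5, e4]
      have e6 : toC (∑ c, D.L (.inr a) c (.inr a') • D.L c) = ∑ c, toC (D.L (.inr a)) c (.inr a') • toC (D.L c) := by
        ext i j
        simp [toC, Matrix.sum_apply]
      rw [e6, Fintype.sum_sum_type]
      have e7 : ∑ c : Fin N, toC (D.L (.inr a)) (.inr c) (.inr a') • toC (D.L (.inr c)) = 0 := by
        refine Finset.sum_eq_zero fun c _ => ?_
        rw [L_r_r, if_neg, zero_smul]
        rw [ha', add_neg_cancel]
        exact hv0 c
      rw [e7, add_zero]
      unfold Tt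
      rw [← Finset.sum_neg_distrib]
      refine Finset.sum_congr rfl fun k _ => ?_
      rw [L_l_r, if_pos ha', neg_smul]
    have e4 : X * -Tt D (D.v a) = -Tt D (D.v a) * X := by
      rw [← e3, mul_sub, sub_mul]
      congr 1
      · rw [← mul_assoc, e1, mul_assoc, e2, mul_assoc]
      · rw [← mul_assoc, e2, mul_assoc, e1, mul_assoc]
    rw [mul_neg, neg_mul] at e4
    exact neg_injective e4
  have s2 : ∀ j, X * Tt D (Pi.single j 1) = Tt D (Pi.single j 1) * X := by
    intro j
    by_cases hj : D.y j = 0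
    · obtain ⟨a, b, ha, hb⟩ := c1 j hj
      have e1 : (Pi.single j 1 : Fin r → ℤ) = D.v b - D.v a := by rw [hb, add_sub_cancel_left]
      have hlb : D.lev (D.v b) ≠ 0 := by rw [hb, lev_add, lev_single, hj, ha]; decide
      rw [e1, Tt_sub, mul_sub, sub_mul, s1 a (by omega), s1 b hlb]
    · obtain ⟨a, ha⟩ := h.simp j
      rw [← ha]
      apply s1
      rw [ha, lev_single]
      exact hj
  -- `X` is diagonal outside of the torus part
  have s3 : ∀ (c : Fin r ⊕ Fin N) (b : Fin N) (j : Fin r), X c (.inr b) * (D.ip (Pi.single j 1) (D.v b) : ℂ) =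
      (Sum.elim (fun _ => (0 : ℂ)) (fun c => (D.ip (Pi.single j 1) (D.v c) : ℂ)) c) * X c (.inr b) := by
    intro c b j
    have e1 := congrFun (congrFun (s2 j) c) (.inr b)
    rw [Matrix.mul_apply, Matrix.mul_apply] at e1
    have e2 : ∑ k, X c k * Tt D (Pi.single j 1) k (.inr b) = X c (.inr b) * (D.ip (Pi.single j 1) (D.v b) : ℂ) := by
      rw [Finset.sum_eq_single (.inr b)]
      · rw [Tt_r, if_pos rfl]
      · intro k _ hk
        rw [Tt_r, if_neg hk, mul_zero]
      · intro h
        exact absurd (Finset.mem_univ _) h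
    rw [e2] at e1
    rw [e1, Finset.sum_eq_single c]
    · congr 1
      rcases c with c | c
      · rw [Tt_l]
        rfl
      · rw [Tt_r, if_pos rfl]
        rfl
    · intro k _ hk
      rcases k with k | k
      · rw [Tt_l, zero_mul]
      · rw [Tt_r, if_neg (Ne.symm hk), zero_mul]
    · intro h
      exact absurd (Finset.mem_univ _) h
  have s3' : ∀ (b : Fin N) (i : Fin r) (j : Fin r),
      (D.ip (Pi.single j 1) (D.v b) : ℂ) * X (.inr b) (.inl i) = 0 := by
    intro b i j
    have e1 := congrFun (congrFun (s2 j) (.inr b)) (.inl i)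
    rw [Matrix.mul_apply, Matrix.mul_apply] at e1
    have e2 : ∑ k, X (.inr b) k * Tt D (Pi.single j 1) k (.inl i) = 0 :=
      Finset.sum_eq_zero fun k _ => by rw [Tt_l, mul_zero]
    rw [e2, Finset.sum_eq_single (.inr b)] at e1
    · rw [Tt_r, if_pos rfl] at e1
      exact e1.symm
    · intro k _ hk
      rcases k with k | k
      · rw [Tt_l, zero_mul]
      · rw [Tt_r, if_neg (Ne.symm hk), zero_mul]
    · intro h
      exact absurd (Finset.mem_univ _) h
  have hj : ∀ b, ∃ j, D.ip (Pi.single j 1) (D.v b) ≠ 0 := by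
    intro b
    by_contra hcon
    push Not at hcon
    exact hv0 b (h.eq_zero hcon)
  have x_lr : ∀ i b, X (.inl i) (.inr b) = 0 := by
    intro i b
    obtain ⟨j, hj⟩ := hj b
    have e1 := s3 (.inl i) b j
    rw [Sum.elim_inl, zero_mul] at e1
    exact (mul_eq_zero.1 e1).resolve_right (by exact_mod_cast hj)
  have x_rl : ∀ b i, X (.inr b) (.inl i) = 0 := by
    intro b i
    obtain ⟨j, hj⟩ := hj b
    exact (mul_eq_zero.1 (s3' b i j)).resolve_left (by exact_mod_cast hj)
  have x_rr : ∀ c b, c ≠ b → X (.inr c) (.inr b) = 0 := by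
    intro c b hcb
    have h2 : ∃ j, D.ip (Pi.single j 1) (D.v b) ≠ D.ip (Pi.single j 1) (D.v c) := by
      by_contra hcon
      push Not at hcon
      have h3 : D.v b - D.v c = 0 := h.eq_zero fun j => by rw [ip_sub_right, hcon, sub_self]
      exact hcb (h.inj (sub_eq_zero.1 h3)).symm
    obtain ⟨j, hj⟩ := h2
    have e1 := s3 (.inr c) b j
    rw [Sum.elim_inr, mul_comm, ← sub_eq_zero, ← sub_mul] at e1
    refine (mul_eq_zero.1 e1).resolve_left fun h0 => hj ?_
    have h4 := sub_eq_zero.1 h0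
    exact_mod_cast h4
  obtain ⟨lam, hlam⟩ : ∃ lam : Fin N → ℂ, lam = fun a => X (.inr a) (.inr a) := ⟨_, rfl⟩
  -- the first equation
  have s4 : ∀ a, D.lev (D.v a) ≠ 0 → ∀ j, ∑ i, (D.ip (Pi.single i 1) (D.v a) : ℂ) * X (.inl i) (.inl j) =
      lam a * (D.ip (Pi.single j 1) (D.v a) : ℂ) := by
    intro a ha j
    have e1 := congrFun (congrFun (hX a ha) (.inr a)) (.inl j)
    rw [Matrix.mul_apply, Matrix.mul_apply, Fintype.sum_sum_type, Fintype.sum_sum_type] at e1
    simp only [x_rl, zero_mul, Finset.sum_const_zero, zero_add, mul_zero, add_zero, L_r_l] at e1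
    rw [Finset.sum_eq_single a] at e1
    · simp only [if_true, neg_mul, Finset.sum_neg_distrib, mul_neg] at e1
      rw [hlam]
      exact (neg_injective e1).symm
    · intro c _ hc
      rw [if_neg hc, mul_zero]
    · intro h
      exact absurd (Finset.mem_univ _) h
  -- the second equation
  have s5 : ∀ a, D.lev (D.v a) ≠ 0 → ∀ k, ∑ i, X (.inl k) (.inl i) * (D.v a i : ℂ) = lam a * (D.v a k : ℂ) := by
    intro a ha k
    obtain ⟨a', ha'⟩ := h.neg a
    have hl : D.lev (D.v a') ≠ 0 := by rw [ha', lev_neg]; omega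
    have haa : D.v a = -D.v a' := by rw [ha', neg_neg]
    have e1 := congrFun (congrFun (hX a' hl) (.inl k)) (.inr a)
    rw [Matrix.mul_apply, Matrix.mul_apply, Fintype.sum_sum_type, Fintype.sum_sum_type] at e1
    simp only [x_lr, zero_mul, Finset.sum_const_zero, add_zero, mul_zero, L_l_l, zero_add] at e1
    have e2 : ∀ i : Fin r, toC (D.L (.inr a')) (.inl i) (.inr a) = (D.v a i : ℂ) := by
      intro i
      rw [L_l_r, if_pos haa, ha', Pi.neg_apply]
      push_cast
      ring
    simp only [e2] at e1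
    rw [e1, Finset.sum_eq_single a]
    · rw [e2, hlam, mul_comm]
    · intro c _ hc
      rw [x_rr c a hc, mul_zero]
    · intro h
      exact absurd (Finset.mem_univ _) h
  have s6 : ∀ a b, D.lev (D.v a) ≠ 0 → D.lev (D.v b) ≠ 0 → D.ip (D.v a) (D.v b) ≠ 0 → lam a = lam b := by
    intro a b ha hb hab
    have e1 : ∑ j, (∑ i, (D.ip (Pi.single i 1) (D.v a) : ℂ) * X (.inl i) (.inl j)) * (D.v b j : ℂ) =
        lam a * (D.ip (D.v a) (D.v b) : ℂ) := by
      simp only [s4 a ha]
      rw [h.ip_comm, ip_sum]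
      push_cast
      rw [Finset.mul_sum]
      refine Finset.sum_congr rfl fun j _ => ?_
      ring
    have e2 : ∑ j, (∑ i, (D.ip (Pi.single i 1) (D.v a) : ℂ) * X (.inl i) (.inl j)) * (D.v b j : ℂ) =
        lam b * (D.ip (D.v a) (D.v b) : ℂ) := by
      simp only [Finset.sum_mul]
      rw [Finset.sum_comm]
      have e3 : ∀ i, ∑ j, (D.ip (Pi.single i 1) (D.v a) : ℂ) * X (.inl i) (.inl j) * (D.v b j : ℂ) =
          (D.ip (Pi.single i 1) (D.v a) : ℂ) * (lam b * (D.v b i : ℂ)) := by
        intro i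
        rw [← s5 b hb i, Finset.mul_sum]
        refine Finset.sum_congr rfl fun j _ => ?_
        ring
      simp only [e3]
      rw [h.ip_comm, ip_sum]
      push_cast
      rw [Finset.mul_sum]
      refine Finset.sum_congr rfl fun j _ => ?_
      ring
    have e3 : (lam a - lam b) * (D.ip (D.v a) (D.v b) : ℂ) = 0 := by
      rw [sub_mul, ← e1, ← e2, sub_self]
    exact sub_eq_zero.1 ((mul_eq_zero.1 e3).resolve_right (by exact_mod_cast hab))
  obtain ⟨a0, ha0⟩ := c4
  have s7 : ∀ a, D.lev (D.v a) = 1 → lam a = lam a0 := by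
    intro a ha
    obtain ⟨c, hc, h2, h3⟩ := c2 a a0 ha ha0
    rw [s6 a c (by omega) (by omega) h2, s6 c a0 (by omega) (by omega) h3]
  have s8 : ∀ a, lam a = lam a0 := by
    intro a
    rcases h1 a with ha | ha | ha
    · obtain ⟨a', ha'⟩ := h.neg a
      have hl : D.lev (D.v a') = 1 := by rw [ha', lev_neg, ha]; norm_num
      rw [s6 a a' (by omega) (by omega) (by rw [ha', ip_neg_right, h.two]; norm_num), s7 a' hl]
    · obtain ⟨b, hb, hbc⟩ := c3 a ha
      obtain ⟨d, hd⟩ := h.add b a hbc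
      have hld : D.lev (D.v d) = 1 := by rw [hd, lev_add, hb, ha]; norm_num
      rw [← s7 d hld]
      have e1 := congrFun (congrFun (hX b (by omega)) (.inr d)) (.inr a)
      rw [Matrix.mul_apply, Matrix.mul_apply, Fintype.sum_sum_type, Fintype.sum_sum_type] at e1
      simp only [x_rl, x_lr, zero_mul, Finset.sum_const_zero, zero_add, mul_zero] at e1
      rw [Finset.sum_eq_single d, Finset.sum_eq_single a] at e1
      · rw [L_r_r, if_pos hd, mul_comm] at e1
        rw [hlam]
        exact (mul_left_cancel₀ (by exact_mod_cast sg_ne _) e1).symm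
      · intro c _ hc
        rw [x_rr c a hc, mul_zero]
      · intro h
        exact absurd (Finset.mem_univ _) h
      · intro c _ hc
        rw [x_rr d c (Ne.symm hc), zero_mul]
      · intro h
        exact absurd (Finset.mem_univ _) h
    · exact s7 a ha
  -- the torus part
  have s9 : ∀ a, D.lev (D.v a) ≠ 0 → ∀ k, ∑ i, X (.inl k) (.inl i) * (D.v a i : ℂ) = lam a0 * (D.v a k : ℂ) := by
    intro a ha k
    rw [s5 a ha k, s8 a]
  have s10 : ∀ j k, X (.inl k) (.inl j) = lam a0 * ((Pi.single j 1 : Fin r → ℤ) k : ℂ) := by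
    intro j k
    have e1 : ∑ i, X (.inl k) (.inl i) * ((Pi.single j 1 : Fin r → ℤ) i : ℂ) = X (.inl k) (.inl j) := by
      rw [Finset.sum_eq_single j]
      · rw [Pi.single_eq_same, Int.cast_one, mul_one]
      · intro i _ hi
        rw [Pi.single_eq_of_ne hi, Int.cast_zero, mul_zero]
      · intro h
        exact absurd (Finset.mem_univ _) h
    rw [← e1]
    by_cases hj : D.y j = 0
    · obtain ⟨a, b, ha, hb⟩ := c1 j hj
      have e2 : (Pi.single j 1 : Fin r → ℤ) = D.v b - D.v a := by rw [hb, add_sub_cancel_left]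
      have hlb : D.lev (D.v b) ≠ 0 := by rw [hb, lev_add, lev_single, hj, ha]; decide
      rw [e2]
      simp only [Pi.sub_apply, Int.cast_sub, mul_sub, Finset.sum_sub_distrib]
      rw [s9 a (by omega) k, s9 b hlb k]
    · obtain ⟨a, ha⟩ := h.simp j
      rw [← ha]
      refine s9 a ?_ k
      rw [ha, lev_single]
      exact hj
  refine ⟨lam a0, ?_⟩
  ext c b
  rw [Matrix.smul_apply, smul_eq_mul]
  rcases c with c | c <;> rcases b with b | b
  · rw [s10 b c, Matrix.one_apply]
    congr 1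
    by_cases hcb : c = b
    · rw [hcb, Pi.single_eq_same, if_pos rfl, Int.cast_one]
    · rw [Pi.single_eq_of_ne hcb, if_neg (by simpa using hcb), Int.cast_zero]
  · rw [x_lr, Matrix.one_apply, if_neg (by simp), mul_zero]
  · rw [x_rl, Matrix.one_apply, if_neg (by simp), mul_zero]
  · by_cases hcb : c = b
    · subst hcb
      rw [Matrix.one_apply_eq, mul_one, ← s8 c, hlam]
    · rw [x_rr c b hcb, Matrix.one_apply, if_neg (by simpa using hcb), mul_zero]

end RD

end C9
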