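import Pool.Agent.Helper85.C9.FF

/-!
Project LT (MP_b8862a_ag), C9: the contraction with a family of matrices, the definition as a sum (the lemmas `FF_rat`,
`FF_br`, `FF_conj`, `FF_rank` are in Helper85/C9/FF).
-/

open Matrix Module MH

namespace C9

variable {n : Type*} [Fintype n] [DecidableEq n] {m : Type*} [Fintype m] [DecidableEq m]

theorem FF_apply (M : Matrix m m ℚ) (L : m → Matrix n n ℚ) (Y : Matrix n n ℂ) :
    FF M L Y = ∑ a, ∑ b, (((M a b : ℚ) : ℂ) * (toC (L a) * Y).trace) • toC (L b) := rfl

end C9
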